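import Pool.Agent.Helper10_QFP.Fermat

set_option autoImplicit false

namespace Pool.Agent.Helper10_QFP

open WittVector MvPolynomial

section

variable {p : ℕ} [hp : Fact p.Prime] {k : Type*} [Field k] [CharP k p] [PerfectRing k p]
variable {n a d : ℕ}

/-- constant exponent vector -/
noncomputable def cE (n e : ℕ) : Fin n →₀ ℕ := Finsupp.equivFunOnFinite.symm (fun _ => e)

@[simp] lemma cE_apply (e : ℕ) (i : Fin n) : cE n e i = e := rfl

/-- the exponent of the auxiliary monomial -/
noncomputable def gE (p n a d e : ℕ) : Fin n →₀ ℕ :=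
  Finsupp.equivFunOnFinite.symm (fun i => p * (e + 1) - 1 - d * tau a i)

@[simp] lemma gE_apply (p a d e : ℕ) (i : Fin n) :
    gE p n a d e i = p * (e + 1) - 1 - d * tau a i := rfl

lemma coprime_aux (hd0 : 0 < d) (hdp : d < p) : IsCoprime (p : ℤ) (d : ℤ) := by
  rw [Nat.isCoprime_iff_coprime]
  exact Nat.coprime_of_lt_prime hd0.ne' hdp hp.out

lemma key_dvd (hd0 : 0 < d) (hdp : d < p) {c t j e : ℕ} (ht : d * t ≤ p * (e + 1) - 1)
    (h : d * c + (p * (e + 1) - 1 - d * t) = p * j + (p - 1)) :
    (p : ℤ) ∣ (c : ℤ) - t ∧ (d : ℤ) * ((c : ℤ) - t) = p * ((j : ℤ) - e) := by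
  have hp1 := hp.out.pos
  have h1 : 1 ≤ p * (e + 1) := Nat.mul_pos hp1 (by omega)
  have h2 : (d : ℤ) * ((c : ℤ) - t) = p * ((j : ℤ) - e) := by
    zify [ht, h1, hp1] at h
    linarith
  refine ⟨?_, h2⟩
  have h3 : (p : ℤ) ∣ (d : ℤ) * ((c : ℤ) - t) := ⟨_, h2⟩
  exact (coprime_aux hd0 hdp).dvd_of_dvd_mul_left h3

variable (hn : 3 ≤ n) (ha : 1 ≤ a) (hpn : p = a * n + 2) (hd0 : 0 < d) (hdn : d < n)

include ha hpn hdn in
lemma d_lt_p : d < p := by nlinarith

include hpn hdn in
lemma da_le : d * a + a + 2 ≤ p := by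
  have : (d + 1) * a ≤ n * a := Nat.mul_le_mul hdn le_rfl
  nlinarith

include hn ha hpn in
lemma two_a_lt : 2 * a + 1 < p := by nlinarith

include hn ha hpn hdn in
lemma tau_bound {e : ℕ} (he : e = p - 1 - d * a) (i : Fin n) :
    d * tau a i ≤ p * (e + 1) - 1 := by
  have h1 := da_le hpn hdn
  have h2 : a + 2 ≤ e + 1 := by omega
  have h3 : p * (a + 2) ≤ p * (e + 1) := Nat.mul_le_mul le_rfl h2
  have h4 : d * tau a i ≤ d * (2 * a + 1) := Nat.mul_le_mul le_rfl (tau_le a i)
  have h5 : (d + 1) * (2 * a + 1) ≤ n * (2 * a + 1) := Nat.mul_le_mul hdn le_rfl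
  have h6 : n * 1 ≤ n * (a * a) := Nat.mul_le_mul le_rfl (Nat.mul_pos ha ha)
  have h7 : d * (2 * a + 1) + 1 ≤ p * (a + 2) := by
    rw [hpn]
    nlinarith
  omega

include hn ha hpn hd0 hdn in
/-- `u (f^{p-1} g) = 0` -/
lemma u_fg {e : ℕ} (he : e = p - 1 - d * a) :
    uu p k n ((fer k n d) ^ (p - 1) * monomial (gE p n a d e) 1) = 0 := by
  ext j
  rw [coeff_uu, coeff_mul_monomial', coeff_zero]
  split_ifs with h
  · have h0 : coeff (shiftE p j - gE p n a d e) ((fer k n d) ^ (p - 1)) = 0 := by
      by_contra hne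
      obtain ⟨c, hc, hsum⟩ := coeff_fer_pow_ne hne
      have hp1 := hp.out.pos
      have hct : ∀ i, c i = tau a i := by
        intro i
        have h1 : (shiftE p j - gE p n a d e) i = d * c i := by rw [hc]; rfl
        rw [Finsupp.tsub_apply, shiftE_apply, gE_apply] at h1
        have h2 := h i
        rw [shiftE_apply, gE_apply] at h2
        have h3 := tau_bound hn ha hpn hdn he i
        have h4 := (key_dvd hd0 (d_lt_p ha hpn hdn) h3
          (c := c i) (j := j i) (by omega)).1
        refine eq_of_dvd ?_ ?_ h4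
        · have : c i ≤ ∑ i, c i := Finset.single_le_sum (fun _ _ => Nat.zero_le _)
            (Finset.mem_univ i)
          omega
        · exact (tau_le a i).trans_lt (two_a_lt hn ha hpn)
      have h5 : ∑ i, c i = 2 * a * n + 3 := by
        rw [← sum_tau hn]
        exact Finset.sum_congr rfl fun i _ => hct i
      rw [hsum, hpn] at h5
      have : 1 * 3 ≤ a * n := Nat.mul_le_mul ha hn
      nlinarith [Nat.sub_le (a * n + 2) 1]
    rw [h0, zero_mul, map_zero]
  · rw [map_zero]

/-- the integral form of `Δ_1(f) f^{p-1}` -/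
lemma delta_mul {D : MvPolynomial (Fin n) ℤ}
    (hD : (p : MvPolynomial (Fin n) ℤ) * D = (fer ℤ n d) ^ p - ∑ i, (X i ^ d) ^ p) :
    (p : MvPolynomial (Fin n) ℤ) * (D * (fer ℤ n d) ^ (p - 1)) =
      (fer ℤ n d) ^ (2 * p - 1) -
        ∑ i, monomial (Finsupp.single i (d * p)) 1 * (fer ℤ n d) ^ (p - 1) := by
  have hp1 := hp.out.pos
  rw [← mul_assoc, hD, sub_mul, ← pow_add, Finset.sum_mul]
  congr 2
  · omega
  · funext i
    rw [← pow_mul, X_pow_eq_monomial]

lemma coeff_p_mul (P : MvPolynomial (Fin n) ℤ) (m : Fin n →₀ ℕ) :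
    coeff m ((p : MvPolynomial (Fin n) ℤ) * P) = p * coeff m P := by
  have : ((p : ℕ) : MvPolynomial (Fin n) ℤ) = C ((p : ℕ) : ℤ) := by simp
  rw [this, coeff_C_mul]

lemma single_le {m : Fin n →₀ ℕ} {i : Fin n} {x : ℕ} : Finsupp.single i x ≤ m ↔ x ≤ m i := by
  classical
  exact Finsupp.single_le_iff

include hd0 in
lemma delta_supp {D : MvPolynomial (Fin n) ℤ}
    (hD : (p : MvPolynomial (Fin n) ℤ) * D = (fer ℤ n d) ^ p - ∑ i, (X i ^ d) ^ p)
    {m : Fin n →₀ ℕ} (hm : coeff m (D * (fer ℤ n d) ^ (p - 1)) ≠ 0) :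
    ∃ c : Fin n → ℕ, m = dE d c ∧ ∑ i, c i = 2 * p - 1 := by
  classical
  have hp1 := hp.out.pos
  have h1 := congrArg (MvPolynomial.coeff m) (delta_mul hD)
  rw [coeff_p_mul, coeff_sub, coeff_sum] at h1
  have hpz : (p : ℤ) ≠ 0 := by exact_mod_cast hp.out.ne_zero
  have h2 : (p : ℤ) * coeff m (D * (fer ℤ n d) ^ (p - 1)) ≠ 0 := mul_ne_zero hpz hm
  rw [h1] at h2
  by_cases h3 : coeff m ((fer ℤ n d) ^ (2 * p - 1)) = 0
  · rw [h3, zero_sub, neg_ne_zero] at h2
    obtain ⟨i, -, hi⟩ := Finset.exists_ne_zero_of_sum_ne_zero h2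
    rw [coeff_monomial_mul'] at hi
    split_ifs at hi with h4
    · rw [one_mul] at hi
      obtain ⟨c, hc, hsum⟩ := coeff_fer_pow_ne hi
      rw [single_le] at h4
      refine ⟨fun j => c j + if j = i then p else 0, ?_, ?_⟩
      · ext j
        have h5 : (m - Finsupp.single i (d * p)) j = d * c j := by rw [hc]; rfl
        rw [Finsupp.tsub_apply] at h5
        rw [dE_apply]
        by_cases hji : j = i
        · subst hji
          rw [Finsupp.single_eq_same] at h5
          rw [if_pos rfl, mul_add]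
          omega
        · rw [Finsupp.single_eq_of_ne hji] at h5
          rw [if_neg hji, add_zero]
          omega
      · rw [Finset.sum_add_distrib, hsum, Finset.sum_ite_eq' Finset.univ i, if_pos (Finset.mem_univ i)]
        omega
    · exact absurd rfl hi
  · exact coeff_fer_pow_ne h3

include hn ha hpn in
/-- `(2p-1)! / ∏ τ_i!` is exactly divisible by `p` -/
lemma not_sq_dvd : ¬ (p ^ 2 ∣ Nat.multinomial Finset.univ (fun i : Fin n => tau a i)) := by
  intro h
  have h1 := Nat.multinomial_spec Finset.univ (fun i : Fin n => tau a i)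
  have h2 : p ^ 2 ∣ (∑ i : Fin n, tau a i).factorial := by
    rw [← h1]; exact h.mul_left _
  rw [sum_tau hn] at h2
  have h3 : 2 * a * n + 3 = p * 1 + (p - 1) := by rw [hpn]; ring_nf; omega
  rw [h3] at h2
  have hp1 := hp.out.pos
  have h4 : padicValNat p (p * 1 + (p - 1)).factorial = 1 := by
    rw [padicValNat_factorial_mul_add 1 (by omega), padicValNat_factorial_mul]
    simp
  have h5 := (padicValNat_dvd_iff_le (Nat.factorial_ne_zero _)).mp h2
  omega

include hn ha hpn hd0 in
lemma delta_coeff {D : MvPolynomial (Fin n) ℤ}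
    (hD : (p : MvPolynomial (Fin n) ℤ) * D = (fer ℤ n d) ^ p - ∑ i, (X i ^ d) ^ p) :
    ¬ ((p : ℤ) ∣ coeff (dE d (fun i : Fin n => tau a i)) (D * (fer ℤ n d) ^ (p - 1))) := by
  classical
  have h1 := congrArg (MvPolynomial.coeff (dE d (fun i : Fin n => tau a i))) (delta_mul hD)
  rw [coeff_p_mul, coeff_sub, coeff_sum, coeff_fer_pow hd0, if_pos, Finset.sum_eq_zero,
    sub_zero] at h1
  · rintro ⟨q, hq⟩
    rw [hq] at h1
    apply not_sq_dvd hn ha hpn
    have h2 : ((p ^ 2 : ℕ) : ℤ) ∣
        ((Nat.multinomial Finset.univ (fun i : Fin n => tau a i) : ℕ) : ℤ) :=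
      ⟨q, by push_cast at h1 ⊢; rw [← h1]; ring⟩
    exact_mod_cast h2
  · intro i _
    rw [coeff_monomial_mul', if_neg]
    rw [single_le, dE_apply]
    intro h
    have h2 := Nat.le_of_mul_le_mul_left h hd0
    have h3 := tau_le a i
    have h4 := two_a_lt hn ha hpn
    omega
  · rw [sum_tau hn, hpn]
    ring_nf
    omega

lemma root_intCast (z : ℤ) : root p ((z : ℤ) : k) = (z : k) := map_intCast _ z

include hn ha hpn hd0 hdn in
/-- `u (f^{p-1} g Δ_1(f)) = N x^e` with `N` prime to `p` -/
lemma u_delta {D : MvPolynomial (Fin n) ℤ}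
    (hD : (p : MvPolynomial (Fin n) ℤ) * D = (fer ℤ n d) ^ p - ∑ i, (X i ^ d) ^ p)
    {e : ℕ} (he : e = p - 1 - d * a) :
    ∃ N : ℤ, ¬ ((p : ℤ) ∣ N) ∧ uu p k n ((fer k n d) ^ (p - 1) * monomial (gE p n a d e) 1 *
      map (Int.castRingHom k) D) = C (N : k) * monomial (cE n e) 1 := by
  classical
  have hp1 := hp.out.pos
  refine ⟨_, delta_coeff hn ha hpn hd0 hD, ?_⟩
  have h1 : (fer k n d) ^ (p - 1) * monomial (gE p n a d e) 1 * map (Int.castRingHom k) D =
      map (Int.castRingHom k) (D * (fer ℤ n d) ^ (p - 1)) * monomial (gE p n a d e) 1 := by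
    rw [map_mul, map_pow, map_fer]; ring
  rw [h1]
  ext j
  rw [coeff_uu, coeff_mul_monomial', coeff_C_mul, coeff_monomial]
  by_cases hj : cE n e = j
  · subst hj
    have h2 : gE p n a d e ≤ shiftE p (cE n e) := by
      intro i
      rw [shiftE_apply, gE_apply, cE_apply, mul_add]
      omega
    have h3 : shiftE p (cE n e) - gE p n a d e = dE d (fun i : Fin n => tau a i) := by
      ext i
      rw [Finsupp.tsub_apply, shiftE_apply, gE_apply, cE_apply, dE_apply]
      have := tau_bound hn ha hpn hdn he i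
      rw [mul_add] at this ⊢
      omega
    rw [if_pos h2, if_pos rfl, h3, coeff_map, mul_one, mul_one]
    exact root_intCast _
  · rw [if_neg hj, mul_zero]
    split_ifs with h
    · have h0 : coeff (shiftE p j - gE p n a d e) (D * (fer ℤ n d) ^ (p - 1)) = 0 := by
        by_contra hne
        obtain ⟨c, hc, hsum⟩ := delta_supp hd0 hD hne
        apply hj
        have hdv : ∀ i, (p : ℤ) ∣ (c i : ℤ) - tau a i ∧
            (d : ℤ) * ((c i : ℤ) - tau a i) = p * ((j i : ℤ) - e) := by
          intro i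
          have h1 : (shiftE p j - gE p n a d e) i = d * c i := by rw [hc]; rfl
          rw [Finsupp.tsub_apply, shiftE_apply, gE_apply] at h1
          have h2 := h i
          rw [shiftE_apply, gE_apply] at h2
          have h3 := tau_bound hn ha hpn hdn he i
          exact key_dvd hd0 (d_lt_p ha hpn hdn) h3 (c := c i) (j := j i) (by omega)
        have hle : ∀ i, tau a i ≤ c i := fun i =>
          le_of_dvd' ((tau_le a i).trans_lt (two_a_lt hn ha hpn)) (hdv i).1
        have hsum' : ∑ i : Fin n, tau a i = ∑ i, c i := by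
          rw [sum_tau hn, hsum, hpn]
          ring_nf
          omega
        have heq : ∀ i, tau a i = c i := fun i =>
          (Finset.sum_eq_sum_iff_of_le (fun i _ => hle i)).mp hsum' i (Finset.mem_univ i)
        ext i
        have h2 := (hdv i).2
        rw [← heq i, sub_self, mul_zero] at h2
        have h3 : (j i : ℤ) - e = 0 := by
          rcases mul_eq_zero.mp h2.symm with h4 | h4
          · exact absurd h4 (by exact_mod_cast hp.out.ne_zero)
          · exact h4
        rw [cE_apply]
        omega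
      rw [coeff_map, h0, map_zero, zero_mul, map_zero]
    · rw [map_zero]

include hn ha hpn hd0 hdn in
/-- `u (f^{p-2} x^e)` is a nonzero constant -/
lemma u_fe {e : ℕ} (he : e = p - 1 - d * a) :
    ∃ M : ℕ, ¬ (p ∣ M) ∧ uu p k n ((fer k n d) ^ (p - 2) * monomial (cE n e) 1) = C (M : k) := by
  classical
  have hp1 := hp.out.two_le
  have hda := da_le hpn hdn
  refine ⟨Nat.multinomial Finset.univ (fun _ : Fin n => a), ?_, ?_⟩
  · intro h
    have h1 := Nat.multinomial_spec Finset.univ (fun _ : Fin n => a)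
    have h2 : p ∣ (∑ _i : Fin n, a).factorial := by
      rw [← h1]; exact h.mul_left _
    rw [hp.out.dvd_factorial, Finset.sum_const, Finset.card_univ, Fintype.card_fin, smul_eq_mul,
      mul_comm] at h2
    omega
  · ext j
    rw [coeff_uu, coeff_mul_monomial', coeff_C]
    by_cases hj : 0 = j
    · subst hj
      have h2 : cE n e ≤ shiftE p 0 := by
        intro i
        rw [shiftE_apply, cE_apply]
        omega
      have h3 : shiftE p 0 - cE n e = dE d (fun _ : Fin n => a) := by
        ext i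
        rw [Finsupp.tsub_apply, shiftE_apply, cE_apply, dE_apply, Finsupp.zero_apply]
        omega
      rw [if_pos h2, if_pos rfl, h3, mul_one, coeff_fer_pow hd0, if_pos]
      · exact map_natCast _ _
      · rw [Finset.sum_const, Finset.card_univ, Fintype.card_fin, smul_eq_mul, mul_comm, hpn]
        omega
    · rw [if_neg hj]
      split_ifs with h
      · have h0 : coeff (shiftE p j - cE n e) ((fer k n d) ^ (p - 2)) = 0 := by
          by_contra hne
          obtain ⟨c, hc, hsum⟩ := coeff_fer_pow_ne hne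
          apply hj
          have hdv : ∀ i, (d : ℤ) * ((c i : ℤ) - a) = p * (j i : ℤ) := by
            intro i
            have h1 : (shiftE p j - cE n e) i = d * c i := by rw [hc]; rfl
            rw [Finsupp.tsub_apply, shiftE_apply, cE_apply] at h1
            have h2 := h i
            rw [shiftE_apply, cE_apply] at h2
            have h3 : d * c i + (p - 1 - d * a) = p * j i + (p - 1) := by omega
            have h4 : d * a ≤ p - 1 := by omega
            have h5 : 1 ≤ p := by omega
            zify [h4, h5] at h3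
            linarith
          have hcop := coprime_aux hd0 (d_lt_p ha hpn hdn)
          have heq : ∀ i, c i = a := by
            intro i
            have h4 : (p : ℤ) ∣ (c i : ℤ) - a :=
              hcop.dvd_of_dvd_mul_left ⟨_, hdv i⟩
            refine eq_of_dvd ?_ ?_ h4
            · have : c i ≤ ∑ i, c i := Finset.single_le_sum (fun _ _ => Nat.zero_le _)
                (Finset.mem_univ i)
              omega
            · have := two_a_lt hn ha hpn
              omega
          ext i
          have h2 := hdv i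
          rw [heq i, sub_self, mul_zero] at h2
          rcases mul_eq_zero.mp h2.symm with h4 | h4
          · exact absurd h4 (by exact_mod_cast hp.out.ne_zero)
          · rw [Finsupp.zero_apply]
            omega
        rw [h0, zero_mul, map_zero]
      · rw [map_zero]

end

end Pool.Agent.Helper10_QFP
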