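import Mathlib

/-!
Quasi-`F`-purity of a ring of characteristic `p`, following the problem file.
The length of the Witt vectors is written `m + 1` (`m = 0, 1, 2, ...`).
-/

set_option autoImplicit false

universe u

namespace Pool.Agent.Helper10_QFP

open WittVector TensorProduct

section

variable (p : ℕ) [hp : Fact p.Prime] (m : ℕ) (S : Type u) [CommRing S]

/-- The Frobenius endomorphism `F` of `W_{m+1}(S)` for a ring `S` of characteristic `p`:
`(x_0, ..., x_m) ↦ (x_0^p, ..., x_m^p)`. -/
noncomputable def frobW [CharP S p] :
    TruncatedWittVector p (m + 1) S →+* TruncatedWittVector p (m + 1) S :=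
  have key : ∀ a : WittVector p S,
      (TruncatedWittVector.mk p (fun i => (WittVector.truncate (m + 1) a).coeff i ^ p) :
        TruncatedWittVector p (m + 1) S) = WittVector.truncate (m + 1) (WittVector.frobenius a) := by
    intro a
    ext i
    rw [TruncatedWittVector.coeff_mk, WittVector.coeff_truncate, WittVector.coeff_truncate,
      WittVector.coeff_frobenius_charP]
  { toFun := fun x => TruncatedWittVector.mk p (fun i => x.coeff i ^ p)
    map_one' := by
      have := key 1
      rwa [map_one, map_one, map_one] at this
    map_mul' := by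
      intro x y
      obtain ⟨a, rfl⟩ := WittVector.truncate_surjective p (m + 1) S x
      obtain ⟨b, rfl⟩ := WittVector.truncate_surjective p (m + 1) S y
      rw [← map_mul, key, key, key, map_mul, map_mul]
    map_zero' := by
      have := key 0
      rwa [map_zero, map_zero, map_zero] at this
    map_add' := by
      intro x y
      obtain ⟨a, rfl⟩ := WittVector.truncate_surjective p (m + 1) S x
      obtain ⟨b, rfl⟩ := WittVector.truncate_surjective p (m + 1) S y
      rw [← map_add, key, key, key, map_add, map_add] }

/-- The restriction `R^m : W_{m+1}(S) → S`, `x ↦ x_0`. -/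
noncomputable def resW : TruncatedWittVector p (m + 1) S →+* S :=
  have key : ∀ a : WittVector p S, (WittVector.truncate (m + 1) a).coeff 0 = constantCoeff a := by
    intro a
    rw [WittVector.coeff_truncate]
    rfl
  { toFun := fun x => x.coeff 0
    map_one' := by
      have := key 1
      rwa [map_one, map_one] at this
    map_mul' := by
      intro x y
      obtain ⟨a, rfl⟩ := WittVector.truncate_surjective p (m + 1) S x
      obtain ⟨b, rfl⟩ := WittVector.truncate_surjective p (m + 1) S y
      rw [← map_mul, key, key, key, map_mul]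
    map_zero' := by
      have := key 0
      rwa [map_zero, map_zero] at this
    map_add' := by
      intro x y
      obtain ⟨a, rfl⟩ := WittVector.truncate_surjective p (m + 1) S x
      obtain ⟨b, rfl⟩ := WittVector.truncate_surjective p (m + 1) S y
      rw [← map_add, key, key, key, map_add] }

/-- `F_* W_{m+1}(S)`: the abelian group `W_{m+1}(S)`, a module over `W_{m+1}(S)` through `F`. -/
def FW : Type u := TruncatedWittVector p (m + 1) S

noncomputable instance : CommRing (FW p m S) :=
  inferInstanceAs (CommRing (TruncatedWittVector p (m + 1) S))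

noncomputable instance [CharP S p] : Module (TruncatedWittVector p (m + 1) S) (FW p m S) :=
  Module.compHom (TruncatedWittVector p (m + 1) S) (frobW p m S)

/-- `S` as an algebra over `W_{m+1}(S)` via the restriction map. -/
noncomputable instance : Algebra (TruncatedWittVector p (m + 1) S) S := (resW p m S).toAlgebra

/-- `Q_{S,m+1} = F_* W_{m+1}(S) ⊗_{W_{m+1}(S)} S`, an `S`-module (the factor `S` is written on
the left). -/
abbrev QQ [CharP S p] : Type u := S ⊗[TruncatedWittVector p (m + 1) S] (FW p m S)

/-- `Φ_{S,m+1} : S → Q_{S,m+1}`, the `S`-linear map induced by `F`, i.e. `s ↦ s ⊗ 1`. -/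
noncomputable def Phi [CharP S p] : S →ₗ[S] QQ p m S :=
  LinearMap.toSpanSingleton S (QQ p m S) ((1 : S) ⊗ₜ (1 : FW p m S))

end

/-- A linear map is pure if it stays injective after tensoring with any module. -/
def IsPure {S : Type u} [CommRing S] {M N : Type u} [AddCommGroup M] [AddCommGroup N] [Module S M]
    [Module S N] (φ : M →ₗ[S] N) : Prop :=
  ∀ (L : Type u) [AddCommGroup L] [Module S L], Function.Injective (LinearMap.rTensor L φ)

/-- `S` has characteristic `p` and is `ℓ`-quasi-`F`-pure (`ℓ ≥ 1`). -/
def IsQuasiFPureOf (p : ℕ) [Fact p.Prime] (ℓ : ℕ) (S : Type u) [CommRing S] : Prop :=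
  ∃ (_ : CharP S p) (m : ℕ), ℓ = m + 1 ∧ IsPure (Phi p m S)

/-- `S` is quasi-`F`-pure: it is `ℓ`-quasi-`F`-pure for some `ℓ ≥ 1`. -/
def IsQuasiFPure (p : ℕ) [Fact p.Prime] (S : Type u) [CommRing S] : Prop :=
  ∃ ℓ : ℕ, 1 ≤ ℓ ∧ IsQuasiFPureOf p ℓ S

end Pool.Agent.Helper10_QFP
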