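import Pool.Agent.Helper10_QFP.Poly

set_option autoImplicit false

namespace Pool.Agent.Helper10_QFP

open WittVector MvPolynomial

section

variable {n : ℕ}

/-- exponent vector `d c` -/
noncomputable def dE (d : ℕ) (c : Fin n → ℕ) : Fin n →₀ ℕ :=
  Finsupp.equivFunOnFinite.symm (fun i => d * c i)

@[simp] lemma dE_apply (d : ℕ) (c : Fin n → ℕ) (i : Fin n) : dE d c i = d * c i := rfl

lemma dE_inj {d : ℕ} (hd : 0 < d) {c c' : Fin n → ℕ} (h : dE d c = dE d c') : c = c' := by
  funext i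
  have := congrFun (congrArg DFunLike.coe h) i
  rw [dE_apply, dE_apply] at this
  exact Nat.eq_of_mul_eq_mul_left hd this

/-- the Fermat polynomial -/
noncomputable def fer (R : Type*) [CommRing R] (n d : ℕ) : MvPolynomial (Fin n) R :=
  ∑ i, X i ^ d

variable {R : Type*} [CommRing R]

lemma prod_X (c : Fin n → ℕ) : ∏ i, (X i : MvPolynomial (Fin n) R) ^ (c i) =
    monomial (Finsupp.equivFunOnFinite.symm c) 1 := by
  rw [monomial_eq, C_1, one_mul, Finsupp.prod_fintype]
  · rfl
  · intro i; rw [pow_zero]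

lemma prod_Xd (d : ℕ) (c : Fin n → ℕ) : ∏ i, ((X i : MvPolynomial (Fin n) R) ^ d) ^ (c i) =
    monomial (dE d c) 1 := by
  unfold dE
  rw [← prod_X]
  refine Finset.prod_congr rfl fun i _ => ?_
  rw [← pow_mul]

lemma fer_pow (d N : ℕ) : (fer R n d) ^ N =
    ∑ c ∈ Finset.piAntidiag Finset.univ N, monomial (dE d c) ((Nat.multinomial Finset.univ c : ℕ) : R) := by
  unfold fer
  rw [Finset.sum_pow_eq_sum_piAntidiag]
  refine Finset.sum_congr rfl fun c _ => ?_
  rw [prod_Xd]
  have : ((Nat.multinomial Finset.univ c : ℕ) : MvPolynomial (Fin n) R) =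
    C ((Nat.multinomial Finset.univ c : ℕ) : R) := by simp
  rw [this, C_mul_monomial, mul_one]

lemma coeff_fer_pow {d : ℕ} (hd : 0 < d) (N : ℕ) (c : Fin n → ℕ) :
    coeff (dE d c) ((fer R n d) ^ N) =
      if ∑ i, c i = N then ((Nat.multinomial Finset.univ c : ℕ) : R) else 0 := by
  classical
  rw [fer_pow, coeff_sum]
  simp only [coeff_monomial]
  split_ifs with h
  · rw [Finset.sum_eq_single c]
    · rw [if_pos rfl]
    · intro c' _ hc'
      rw [if_neg]
      exact fun h' => hc' (dE_inj hd h')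
    · intro hc
      exfalso; apply hc
      rw [Finset.mem_piAntidiag]
      exact ⟨h, fun i _ => Finset.mem_univ i⟩
  · apply Finset.sum_eq_zero
    intro c' hc'
    rw [if_neg]
    intro h'
    apply h
    rw [← dE_inj hd h']
    exact (Finset.mem_piAntidiag.mp hc').1

lemma coeff_fer_pow_ne {d : ℕ} {N : ℕ} {m : Fin n →₀ ℕ} (h : coeff m ((fer R n d) ^ N) ≠ 0) :
    ∃ c : Fin n → ℕ, m = dE d c ∧ ∑ i, c i = N := by
  classical
  rw [fer_pow, coeff_sum] at h
  obtain ⟨c, hc, hc'⟩ := Finset.exists_ne_zero_of_sum_ne_zero h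
  rw [coeff_monomial] at hc'
  refine ⟨c, ?_, (Finset.mem_piAntidiag.mp hc).1⟩
  by_contra hne
  rw [if_neg (fun h => hne h.symm)] at hc'
  exact hc' rfl

lemma map_fer {S : Type*} [CommRing S] (φ : R →+* S) (d : ℕ) : map φ (fer R n d) = fer S n d := by
  unfold fer
  simp

end

section Delta

variable {p : ℕ} [hp : Fact p.Prime] {n : ℕ}

/-- `Δ_1(f)` over the integers -/
lemma exists_delta (n d : ℕ) : ∃ D : MvPolynomial (Fin n) ℤ,
    (p : MvPolynomial (Fin n) ℤ) * D = (fer ℤ n d) ^ p - ∑ i, (X i ^ d) ^ p ∧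
    (teichmuller p (fer ℤ n d) - ∑ i, teichmuller p (X i ^ d)).coeff 1 = D := by
  refine ⟨(teichmuller p (fer ℤ n d) - ∑ i, teichmuller p (X i ^ d)).coeff 1, ?_, rfl⟩
  set W : WittVector p (MvPolynomial (Fin n) ℤ) :=
    teichmuller p (fer ℤ n d) - ∑ i, teichmuller p (X i ^ d) with hW
  have h0 : W.coeff 0 = 0 := by
    rw [hW]
    have : ∀ w : WittVector p (MvPolynomial (Fin n) ℤ), w.coeff 0 = constantCoeff w := fun _ => rfl
    rw [this, map_sub, map_sum]
    simp only [← this, teichmuller_coeff_zero]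
    unfold fer
    rw [sub_self]
  have h1 : ghostComponent 1 W = (fer ℤ n d) ^ p - ∑ i, (X i ^ d) ^ p := by
    rw [hW, map_sub, map_sum]
    simp only [ghostComponent_teichmuller, pow_one]
  rw [ghostComponent_apply, wittPolynomial_one] at h1
  simp only [map_add, map_mul, map_pow, aeval_X] at h1
  rw [h0, zero_pow hp.out.ne_zero, add_zero] at h1
  rw [← h1]
  simp

end Delta

section Arith

/-- the exponents `τ` -/
def tau (a : ℕ) {n : ℕ} (i : Fin n) : ℕ := if (i : ℕ) < 3 then 2 * a + 1 else 2 * a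

lemma sum_tau {a n : ℕ} (hn : 3 ≤ n) : ∑ i : Fin n, tau a i = 2 * a * n + 3 := by
  unfold tau
  have h : ∀ i : Fin n, (if (i : ℕ) < 3 then 2 * a + 1 else 2 * a) =
      2 * a + (if (i : ℕ) < 3 then 1 else 0) := by
    intro i; split_ifs <;> rfl
  simp only [h]
  rw [Finset.sum_add_distrib, Finset.sum_const, Finset.card_univ, Fintype.card_fin, smul_eq_mul,
    Finset.sum_boole]
  have h2 : (Finset.univ.filter (fun i : Fin n => (i : ℕ) < 3)).card = 3 := by
    have h3 : (Finset.univ.filter (fun i : Fin n => (i : ℕ) < 3)) =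
        Finset.univ.map (Fin.castLEEmb hn) := by
      ext i
      simp only [Finset.mem_filter, Finset.mem_univ, true_and, Finset.mem_map, Fin.castLEEmb_apply]
      constructor
      · intro h
        exact ⟨⟨i, h⟩, by ext; simp⟩
      · rintro ⟨j, rfl⟩
        simpa using j.2
    rw [h3, Finset.card_map, Finset.card_univ, Fintype.card_fin]
  rw [h2]
  push_cast
  ring

lemma tau_le (a : ℕ) {n : ℕ} (i : Fin n) : tau a i ≤ 2 * a + 1 := by
  unfold tau; split_ifs <;> omega

variable {p a n d : ℕ}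

/-- arithmetic: `p ∣ c - t` and both are small -/
lemma eq_of_dvd {c t : ℕ} (hc : c < p) (ht : t < p) (h : (p : ℤ) ∣ (c : ℤ) - t) : c = t := by
  have h1 : (c : ℤ) - t = 0 := by
    apply Int.eq_zero_of_abs_lt_dvd h
    rw [abs_lt]
    constructor <;> omega
  omega

lemma le_of_dvd' {c t : ℕ} (ht : t < p) (h : (p : ℤ) ∣ (c : ℤ) - t) : t ≤ c := by
  by_contra hc
  push Not at hc
  obtain ⟨q, hq⟩ := h
  have h1 : q < 0 := by
    by_contra hq'
    push Not at hq'
    have : 0 ≤ (p : ℤ) * q := by positivity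
    omega
  have h2 : (p : ℤ) * q ≤ (p : ℤ) * (-1) := by
    apply mul_le_mul_of_nonneg_left (by omega) (by positivity)
  omega

end Arith

end Pool.Agent.Helper10_QFP
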