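import Pool.Agent.Helper10_QFP.Calc
import Pool.Agent.Helper10_QFP.Defs

set_option autoImplicit false

universe u

namespace Pool.Agent.Helper10_QFP

open WittVector MvPolynomial

section

variable {p : ℕ} [hp : Fact p.Prime] {k : Type u} [Field k] [CharP k p] [PerfectRing k p]
variable {n a d : ℕ}

lemma teich_sh {D : MvPolynomial (Fin n) ℤ}
    (hD : (teichmuller p (fer ℤ n d) - ∑ i, teichmuller p (X i ^ d)).coeff 1 = D) :
    ∃ z : MvPolynomial (Fin n) k,
      (teichmuller p (fer k n d) - sh (sec p k n) (fer k n d)).coeff 1 =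
        MvPolynomial.map (Int.castRingHom k) D + z ^ p := by
  set ρ : MvPolynomial (Fin n) ℤ →+* MvPolynomial (Fin n) k :=
    MvPolynomial.map (Int.castRingHom k) with hρ
  set W : WittVector p (MvPolynomial (Fin n) k) :=
    teichmuller p (fer k n d) - ∑ i, teichmuller p (X i ^ d) with hW
  have h1 : W = WittVector.map ρ (teichmuller p (fer ℤ n d) - ∑ i, teichmuller p (X i ^ d)) := by
    rw [hW, map_sub, map_sum, WittVector.map_teichmuller]
    simp only [WittVector.map_teichmuller, hρ, map_fer, map_pow, map_X]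
  have h2 : W.coeff 1 = ρ D := by rw [h1, WittVector.map_coeff, hD]
  have h3 : W.coeff 0 = 0 := by
    rw [hW]
    have : ∀ w : WittVector p (MvPolynomial (Fin n) k), w.coeff 0 = WittVector.constantCoeff w :=
      fun _ => rfl
    rw [this, map_sub, map_sum]
    simp only [← this, teichmuller_coeff_zero]
    unfold fer
    rw [sub_self]
  have h4 : sh (sec p k n) (fer k n d) - ∑ i, teichmuller p (X i ^ d) ∈
      pI p (MvPolynomial (Fin n) k) := by
    rw [← Ideal.Quotient.eq_zero_iff_mem, map_sub, mk_sh, map_sum]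
    unfold fer
    rw [map_sum, sub_eq_zero]
    refine Finset.sum_congr rfl fun i _ => ?_
    rw [map_pow, sec_X, ← map_pow, ← map_pow]
  obtain ⟨z, hz⟩ := mem_pI.mp h4
  refine ⟨(-z).coeff 0, ?_⟩
  have h5 : teichmuller p (fer k n d) - sh (sec p k n) (fer k n d) =
      W + (-z) * (p : WittVector p (MvPolynomial (Fin n) k)) := by
    rw [neg_mul, ← hz, hW]; ring
  rw [h5, coeff_one_add h3 (p_mul_coeff (-z)).1, h2, (p_mul_coeff (-z)).2]

/-- `w - [w_0]` has first components `0, w_1` -/
lemma sub_teich {B : Type u} [CommRing B] (w : WittVector p B) :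
    (w - teichmuller p (w.coeff 0)).coeff 0 = 0 ∧
      (w - teichmuller p (w.coeff 0)).coeff 1 = w.coeff 1 := by
  have h1 : WittVector.init 1 w = teichmuller p (w.coeff 0) := by
    ext i
    rcases Nat.eq_zero_or_pos i with h | h
    · subst h
      rw [teichmuller_coeff_zero]
      simp [WittVector.init, WittVector.select, WittVector.coeff_mk]
    · rw [teichmuller_coeff_pos p _ i h]
      have : ¬ i < 1 := by omega
      simp only [WittVector.init, WittVector.select, WittVector.coeff_mk, if_neg this]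
  have h2 : w - teichmuller p (w.coeff 0) = WittVector.tail 1 w := by
    rw [← h1]
    have := WittVector.init_add_tail w 1
    rw [eq_comm, ← sub_eq_zero] at this
    rw [← sub_eq_zero, ← this]
    ring
  rw [h2]
  constructor
  · simp [WittVector.tail, WittVector.select, WittVector.coeff_mk]
  · simp [WittVector.tail, WittVector.select, WittVector.coeff_mk]

variable (hn : 3 ≤ n) (ha : 1 ≤ a) (hpn : p = a * n + 2) (hd0 : 0 < d) (hdn : d < n)

lemma uu_intMul (N : ℤ) (P : MvPolynomial (Fin n) k) :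
    uu p k n (C (N : k) * P) = C (N : k) * uu p k n P := by
  have : ∀ Q : MvPolynomial (Fin n) k, C (N : k) * Q = N • Q := by
    intro Q
    rw [zsmul_eq_mul]
    simp
  rw [this, this, map_zsmul]

include hn ha hpn hd0 hdn in
/-- the key functional on `W(A)` -/
lemma exists_psi : ∃ ψ : WittVector p (MvPolynomial (Fin n) k) → MvPolynomial (Fin n) k,
    (∀ v w, ψ (v + w) = ψ v + ψ w) ∧
    (∀ v w, ψ (WittVector.frobenius v * w) = v.coeff 0 * ψ w) ∧
    (ψ 1 = 1) ∧
    (∀ w, w.coeff 0 ∈ Ideal.span {fer k n d} → w.coeff 1 ∈ Ideal.span {fer k n d} →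
      ψ w ∈ Ideal.span {fer k n d}) := by
  have hp2 := hp.out.two_le
  obtain ⟨e, he⟩ : ∃ e, e = p - 1 - d * a := ⟨_, rfl⟩
  obtain ⟨D, hD, hD'⟩ := exists_delta (p := p) n d
  obtain ⟨N, hN, hNu⟩ := u_delta (k := k) hn ha hpn hd0 hdn hD he
  obtain ⟨M, hM, hMu⟩ := u_fe (k := k) hn ha hpn hd0 hdn he
  have hfg := u_fg (k := k) hn ha hpn hd0 hdn he
  set f := fer k n d with hf
  set g : MvPolynomial (Fin n) k := monomial (gE p n a d e) 1 with hg
  set Dk := MvPolynomial.map (Int.castRingHom k) D with hDk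
  set h : MvPolynomial (Fin n) k := C (N : k) * monomial (cE n e) 1 with hh
  set g1 := f ^ (p ^ 2 - 1) * g with hg1
  set g0 := -(f ^ (p - 2) * h) with hg0
  have hu : ∀ a b : MvPolynomial (Fin n) k, uu p k n (a ^ p * b) = a * uu p k n b := uu_pow_mul
  have hsec : ∀ x, pr (sec p k n x) = x := pr_sec
  have hpp : p ^ 2 - 1 = (p - 1) * p + (p - 1) := by
    obtain ⟨q, rfl⟩ : ∃ q, p = q + 1 := ⟨p - 1, by omega⟩
    have : (q + 1) ^ 2 = q * (q + 1) + q + 1 := by ring
    rw [this, Nat.add_sub_cancel, Nat.add_sub_cancel]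
  have hg1' : ∀ b, uu p k n (g1 * b) = f ^ (p - 1) * uu p k n (f ^ (p - 1) * g * b) := by
    intro b
    have : g1 * b = (f ^ (p - 1)) ^ p * (f ^ (p - 1) * g * b) := by
      rw [hg1, hpp, pow_add, pow_mul]; ring
    rw [this, hu]
  have hu1 : uu p k n g1 = 0 := by
    have := hg1' 1
    rw [mul_one, mul_one, hfg, mul_zero] at this
    exact this
  set ψ := psi (sec p k n) (uu p k n) g0 g1 with hψ
  have hone : ψ 1 = C (-((N : k) * (M : k))) := by
    rw [hψ, psi_one (sec p k n) (uu p k n) g0 g1 hsec hu hu1, hg0, map_neg, hh]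
    have : f ^ (p - 2) * (C (N : k) * monomial (cE n e) 1) =
        C (N : k) * (f ^ (p - 2) * monomial (cE n e) 1) := by ring
    rw [this, uu_intMul, hMu, ← C_mul, ← C_neg]
  have hunit : -((N : k) * (M : k)) ≠ 0 := by
    rw [neg_ne_zero]
    refine mul_ne_zero ?_ ?_
    · intro h0
      exact hN ((CharP.intCast_eq_zero_iff k p N).mp h0)
    · intro h0
      exact hM ((CharP.cast_eq_zero_iff k p M).mp h0)
  have hadd : ∀ v w, ψ (v + w) = ψ v + ψ w :=
    psi_add (sec p k n) (uu p k n) g0 g1 hsec hu hu1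
  have hideal : ∀ w, w.coeff 0 ∈ Ideal.span {f} → w.coeff 1 ∈ Ideal.span {f} →
      ψ w ∈ Ideal.span {f} := by
    intro w hw0 hw1
    obtain ⟨h1, h2⟩ := sub_teich w
    have h3 : ψ w = ψ (teichmuller p (w.coeff 0)) + ψ (w - teichmuller p (w.coeff 0)) := by
      rw [← hadd, add_sub_cancel]
    rw [h3]
    rw [Ideal.mem_span_singleton] at hw0 hw1
    obtain ⟨y, hy⟩ := hw0
    obtain ⟨x, hx⟩ := hw1
    refine Ideal.add_mem _ ?_ ?_
    · -- the Teichmuller part
      rw [hy]
      obtain ⟨β, hβ⟩ := psi_teich (sec p k n) (uu p k n) g0 g1 hsec hu hu1 f y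
      rw [hψ, hβ]
      obtain ⟨z, hz⟩ := teich_sh (p := p) (k := k) hD'
      rw [hz]
      have e1 : uu p k n (g1 * ((Dk + z ^ p) * y ^ p)) = y * (f ^ (p - 1) * h) := by
        have t1 : g1 * ((Dk + z ^ p) * y ^ p) = y ^ p * (g1 * (Dk + z ^ p)) := by ring
        rw [t1, hu, hg1', mul_add, map_add, hNu]
        have t2 : f ^ (p - 1) * g * z ^ p = z ^ p * (f ^ (p - 1) * g) := by ring
        rw [t2, hu, hfg, mul_zero, add_zero]
      have e2 : uu p k n (g0 * (f * y)) + uu p k n (uu p k n (g1 * ((Dk + z ^ p) * y ^ p))) = 0 := by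
        rw [e1, ← map_add]
        have t3 : g0 * (f * y) + y * (f ^ (p - 1) * h) = 0 := by
          have : f ^ (p - 1) = f ^ (p - 2) * f := by rw [← pow_succ]; congr 1; omega
          rw [hg0, this]; ring
        rw [t3, map_zero]
      rw [← add_assoc, e2, zero_add]
      have t4 : g1 * (β * f ^ p) = f ^ p * (g1 * β) := by ring
      rw [t4, hu, hg1']
      have t5 : f * (f ^ (p - 1) * uu p k n (f ^ (p - 1) * g * β)) =
          f ^ p * uu p k n (f ^ (p - 1) * g * β) := by
        have : f ^ p = f * f ^ (p - 1) := by rw [← pow_succ']; congr 1; omega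
        rw [this]; ring
      rw [t5, hu]
      exact Ideal.mul_mem_right _ _ (Ideal.mem_span_singleton_self f)
    · rw [hψ, psi_of_zero (sec p k n) (uu p k n) g0 g1 hu hu1 h1, h2, hx]
      have t1 : g1 * (f * x) = (f ^ p) ^ p * (g * x) := by
        have : (f ^ p) ^ p = f ^ (p ^ 2 - 1) * f := by
          rw [← pow_mul, ← pow_succ]; congr 1
          have : 1 ≤ p ^ 2 := Nat.one_le_pow _ _ (by omega)
          rw [sq] at this ⊢; omega
        rw [hg1, this]; ring
      rw [t1, hu, hu]
      exact Ideal.mul_mem_right _ _ (Ideal.mem_span_singleton_self f)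
  refine ⟨fun w => C ((-((N : k) * (M : k)))⁻¹) * ψ w, ?_, ?_, ?_, ?_⟩
  · intro v w
    change C _ * ψ (v + w) = C _ * ψ v + C _ * ψ w
    rw [hadd, mul_add]
  · intro v w
    change C _ * ψ (WittVector.frobenius v * w) = v.coeff 0 * (C _ * ψ w)
    have := psi_frob (sec p k n) (uu p k n) g0 g1 hsec hu hu1 v w
    rw [hψ, this]
    ring
  · change C _ * ψ 1 = 1
    rw [hone, ← C_mul, inv_mul_cancel₀ hunit, C_1]
  · intro w h0 h1
    exact Ideal.mul_mem_left _ _ (hideal w h0 h1)

end

section Final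

variable (p : ℕ) [hp : Fact p.Prime] (k : Type u) [Field k] [CharP k p] [PerfectRing k p]
variable (n a d : ℕ)

/-- the Fermat hypersurface ring -/
abbrev FR : Type u := MvPolynomial (Fin n) k ⧸ Ideal.span {∑ i : Fin n, (X i : MvPolynomial (Fin n) k) ^ d}

lemma charP_FR (hd0 : 0 < d) : CharP (FR k n d) p := by
  have hne : Ideal.span {∑ i : Fin n, (X i : MvPolynomial (Fin n) k) ^ d} ≠ ⊤ := by
    intro h
    have h1 : Ideal.span {∑ i : Fin n, (X i : MvPolynomial (Fin n) k) ^ d} ≤
        RingHom.ker (aeval (fun _ : Fin n => (0 : k))).toRingHom := by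
      rw [Ideal.span_le, Set.singleton_subset_iff, SetLike.mem_coe, RingHom.mem_ker]
      simp [hd0.ne']
    rw [h, top_le_iff] at h1
    have h2 : (1 : MvPolynomial (Fin n) k) ∈
        RingHom.ker (aeval (fun _ : Fin n => (0 : k)) : MvPolynomial (Fin n) k →ₐ[k] k).toRingHom := by
      rw [h1]; trivial
    rw [RingHom.mem_ker, map_one] at h2
    exact one_ne_zero h2
  haveI : Nontrivial (FR k n d) := Ideal.Quotient.nontrivial_iff.mpr hne
  exact charP_of_injective_ringHom ((Ideal.Quotient.mk _).comp C : k →+* FR k n d).injective p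

/-- the reduction map `W(A) → W_2(R)` -/
noncomputable def qq : WittVector p (MvPolynomial (Fin n) k) →+* TruncatedWittVector p (1 + 1) (FR k n d) :=
  (WittVector.truncate (1 + 1)).comp (WittVector.map (Ideal.Quotient.mk _))

lemma qq_coeff (w : WittVector p (MvPolynomial (Fin n) k)) (i : Fin (1 + 1)) :
    (qq p k n d w).coeff i = Ideal.Quotient.mk _ (w.coeff i) := by
  unfold qq
  rw [RingHom.comp_apply, WittVector.coeff_truncate, WittVector.map_coeff]

lemma qq_surj : Function.Surjective (qq p k n d) :=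
  (WittVector.truncate_surjective p (1 + 1) (FR k n d)).comp
    (WittVector.map_surjective _ Ideal.Quotient.mk_surjective)

theorem isPure_Phi [CharP (FR k n d) p] (hn : 3 ≤ n) (ha : 1 ≤ a) (hpn : p = a * n + 2)
    (hd0 : 0 < d) (hdn : d < n) : IsPure (Phi p 1 (FR k n d)) := by
  classical
  obtain ⟨ψ, hadd, hfrob, hone, hideal⟩ := exists_psi (p := p) (k := k) hn ha hpn hd0 hdn
  set I : Ideal (MvPolynomial (Fin n) k) := Ideal.span {∑ i : Fin n, (X i) ^ d} with hI
  have hψ0 : ψ 0 = 0 := by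
    have := hadd 0 0
    rw [add_zero] at this
    exact left_eq_add.mp this
  have hsub : ∀ v w, ψ (v - w) = ψ v - ψ w := by
    intro v w
    have := hadd (v - w) w
    rw [sub_add_cancel] at this
    rw [this]; ring
  have hwell : ∀ v w, qq p k n d v = qq p k n d w →
      Ideal.Quotient.mk I (ψ v) = Ideal.Quotient.mk I (ψ w) := by
    intro v w h
    rw [Ideal.Quotient.mk_eq_mk_iff_sub_mem, ← hsub]
    have h1 : qq p k n d (v - w) = 0 := by rw [map_sub, h, sub_self]
    have h2 : ∀ i : Fin (1 + 1), (v - w).coeff i ∈ I := by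
      intro i
      rw [← Ideal.Quotient.eq_zero_iff_mem, ← qq_coeff, h1]
      exact TruncatedWittVector.coeff_zero p (1 + 1) (FR k n d) i
    exact hideal (v - w) (h2 0) (h2 1)
  -- the functional on W_2(R)
  have hl : ∀ x : TruncatedWittVector p (1 + 1) (FR k n d), ∃ w, qq p k n d w = x :=
    fun x => qq_surj p k n d x
  choose lft hlft using hl
  have hL : ∀ w, Ideal.Quotient.mk I (ψ (lft (qq p k n d w))) = Ideal.Quotient.mk I (ψ w) := by
    intro w
    exact hwell _ _ (hlft _)
  have hΨadd : ∀ x y : TruncatedWittVector p (1 + 1) (FR k n d),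
      Ideal.Quotient.mk I (ψ (lft (x + y))) =
        Ideal.Quotient.mk I (ψ (lft x)) + Ideal.Quotient.mk I (ψ (lft y)) := by
    intro x y
    rw [← map_add, ← hadd]
    apply hwell
    rw [hlft, map_add, hlft, hlft]
  have hΨsmul : ∀ x y : TruncatedWittVector p (1 + 1) (FR k n d),
      Ideal.Quotient.mk I (ψ (lft (frobW p 1 (FR k n d) x * y))) =
        resW p 1 (FR k n d) x * Ideal.Quotient.mk I (ψ (lft y)) := by
    intro x y
    obtain ⟨v, rfl⟩ := qq_surj p k n d x
    have h1 : frobW p 1 (FR k n d) (qq p k n d v) * y =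
        qq p k n d (WittVector.frobenius v * lft y) := by
      rw [map_mul, hlft]
      congr 1
      ext i
      change (qq p k n d v).coeff i ^ p = _
      rw [qq_coeff, qq_coeff, WittVector.coeff_frobenius_charP, map_pow]
    rw [h1, hL, hfrob, map_mul]
    congr 1
  let Ψ : FW p 1 (FR k n d) →ₗ[TruncatedWittVector p (1 + 1) (FR k n d)] FR k n d :=
    { toFun := fun x => Ideal.Quotient.mk I (ψ (lft x))
      map_add' := hΨadd
      map_smul' := hΨsmul }
  have hΨ1 : Ψ 1 = 1 := by
    change Ideal.Quotient.mk I (ψ (lft 1)) = 1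
    have h1 : (1 : TruncatedWittVector p (1 + 1) (FR k n d)) = qq p k n d 1 :=
      (map_one (qq p k n d)).symm
    rw [h1, hL, hone, map_one]
  set ρ : QQ p 1 (FR k n d) →ₗ[FR k n d] FR k n d := LinearMap.liftBaseChange (FR k n d) Ψ with hρ
  have hcomp : ρ ∘ₗ Phi p 1 (FR k n d) = LinearMap.id := by
    apply LinearMap.ext_ring
    rw [LinearMap.comp_apply, LinearMap.id_apply]
    unfold Phi
    rw [LinearMap.toSpanSingleton_apply, one_smul, hρ, LinearMap.liftBaseChange_tmul, hΨ1,
      smul_eq_mul, mul_one]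
  intro L _ _
  apply Function.LeftInverse.injective (g := LinearMap.rTensor L ρ)
  intro x
  rw [← LinearMap.rTensor_comp_apply, hcomp, LinearMap.rTensor_id_apply]

theorem main (hn : 3 ≤ n) (ha : 1 ≤ a) (hpn : p = a * n + 2) (hd0 : 0 < d) (hdn : d < n) :
    IsQuasiFPureOf p 2 (FR k n d) := by
  haveI := charP_FR p k n d hd0
  exact ⟨inferInstance, 1, rfl, isPure_Phi p k n a d hn ha hpn hd0 hdn⟩

end Final

end Pool.Agent.Helper10_QFP
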