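import Pool.Agent.Helper10_QFP.Psi

set_option autoImplicit false

namespace Pool.Agent.Helper10_QFP

open WittVector MvPolynomial

section

variable {p : ℕ} [hp : Fact p.Prime] {k : Type*} [Field k] [CharP k p] [PerfectRing k p] {n : ℕ}

/-- the exponent `p j + (p-1)` -/
noncomputable def shiftE (p : ℕ) {n : ℕ} (j : Fin n →₀ ℕ) : Fin n →₀ ℕ :=
  p • j + Finsupp.equivFunOnFinite.symm (fun _ => p - 1)

lemma shiftE_apply (j : Fin n →₀ ℕ) (i : Fin n) : shiftE p j i = p * j i + (p - 1) := by
  simp [shiftE]

/-- `p`-th root -/
noncomputable def root (p : ℕ) [Fact p.Prime] {k : Type*} [Field k] [CharP k p] [PerfectRing k p] :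
    k ≃+* k := (frobeniusEquiv k p).symm

lemma root_pow_mul (c d : k) : root p (c ^ p * d) = c * root p d := by
  rw [map_mul]
  congr 1
  unfold root
  rw [RingEquiv.symm_apply_eq]
  rfl

lemma div_shiftE (j : Fin n →₀ ℕ) :
    (shiftE p j).mapRange (fun m => m / p) (Nat.zero_div p) = j := by
  ext i
  have := hp.out.pos
  rw [Finsupp.mapRange_apply, shiftE_apply, Nat.mul_add_div this, Nat.div_eq_of_lt (by omega)]
  simp

/-- the generator `u` of `Hom(F_* A, A)` as a function -/
noncomputable def uFun (p : ℕ) [Fact p.Prime] {k : Type*} [Field k] [CharP k p] [PerfectRing k p]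
    {n : ℕ} (P : MvPolynomial (Fin n) k) : MvPolynomial (Fin n) k := by
  classical
  exact ∑ j ∈ P.support.image (fun m => m.mapRange (fun m => m / p) (Nat.zero_div p)),
    monomial j (root p (coeff (shiftE p j) P))

lemma coeff_uFun (P : MvPolynomial (Fin n) k) (j : Fin n →₀ ℕ) :
    coeff j (uFun p P) = root p (coeff (shiftE p j) P) := by
  classical
  unfold uFun
  rw [coeff_sum]
  simp only [coeff_monomial]
  rw [Finset.sum_ite_eq']
  split_ifs with h
  · rfl
  · have h1 : coeff (shiftE p j) P = 0 := by
      by_contra hc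
      apply h
      rw [Finset.mem_image]
      exact ⟨shiftE p j, mem_support_iff.mpr hc, div_shiftE j⟩
    rw [h1, map_zero]

/-- the generator `u` of `Hom(F_* A, A)` -/
noncomputable def uu (p : ℕ) [Fact p.Prime] (k : Type*) [Field k] [CharP k p] [PerfectRing k p]
    (n : ℕ) : MvPolynomial (Fin n) k →+ MvPolynomial (Fin n) k where
  toFun := uFun p
  map_zero' := by
    ext j
    rw [coeff_uFun]
    simp
  map_add' P Q := by
    ext j
    rw [coeff_uFun, coeff_add, coeff_add, coeff_uFun, coeff_uFun, map_add]

lemma coeff_uu (P : MvPolynomial (Fin n) k) (j : Fin n →₀ ℕ) :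
    coeff j (uu p k n P) = root p (coeff (shiftE p j) P) := coeff_uFun P j

lemma uu_pow_mul (a b : MvPolynomial (Fin n) k) : uu p k n (a ^ p * b) = a * uu p k n b := by
  classical
  have hp0 := hp.out.pos
  induction a using MvPolynomial.induction_on' with
  | monomial s c =>
    ext j
    rw [coeff_uu, monomial_pow, coeff_monomial_mul', coeff_monomial_mul', coeff_uu]
    have h1 : p • s ≤ shiftE p j ↔ s ≤ j := by
      rw [Finsupp.le_def, Finsupp.le_def]
      refine forall_congr' fun i => ?_
      rw [shiftE_apply, Finsupp.smul_apply, smul_eq_mul]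
      constructor
      · intro h
        by_contra hc
        push Not at hc
        have : p * (j i + 1) ≤ p * s i := Nat.mul_le_mul le_rfl hc
        rw [mul_add] at this
        omega
      · intro h
        have : p * s i ≤ p * j i := Nat.mul_le_mul le_rfl h
        omega
    by_cases hs : s ≤ j
    · rw [if_pos hs, if_pos (h1.mpr hs)]
      have h2 : shiftE p j - p • s = shiftE p (j - s) := by
        ext i
        rw [Finsupp.tsub_apply, shiftE_apply, shiftE_apply, Finsupp.smul_apply, smul_eq_mul,
          Finsupp.tsub_apply]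
        have h3 : p * s i ≤ p * j i := Nat.mul_le_mul le_rfl (hs i)
        rw [Nat.mul_sub]
        omega
      rw [h2, root_pow_mul]
    · rw [if_neg hs, if_neg (fun h => hs (h1.mp h)), map_zero]
  | add a a' ha ha' =>
    rw [add_pow_char, add_mul, map_add, ha, ha', add_mul]

/-- the ring homomorphism `k → W(A)/p` -/
noncomputable def kB (p : ℕ) [Fact p.Prime] (k : Type*) [Field k] [CharP k p] [PerfectRing k p]
    (n : ℕ) : k →+* WittVector p (MvPolynomial (Fin n) k) ⧸ pI p (MvPolynomial (Fin n) k) :=
  (Ideal.quotientMap (I := Ideal.span {(p : WittVector p k)}) (pI p (MvPolynomial (Fin n) k))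
    (WittVector.map (C : k →+* MvPolynomial (Fin n) k)) (by
      rw [Ideal.span_le, Set.singleton_subset_iff]
      simp only [Ideal.coe_comap, Set.mem_preimage, SetLike.mem_coe, map_natCast]
      exact Ideal.mem_span_singleton_self _)).comp
    (quotientPEquiv (p := p) (k := k)).symm.toRingHom

/-- the section `A → W(A)/p` -/
noncomputable def sec (p : ℕ) [Fact p.Prime] (k : Type*) [Field k] [CharP k p] [PerfectRing k p]
    (n : ℕ) : MvPolynomial (Fin n) k →+*
      WittVector p (MvPolynomial (Fin n) k) ⧸ pI p (MvPolynomial (Fin n) k) :=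
  eval₂Hom (kB p k n) (fun i => Ideal.Quotient.mk _ (teichmuller p (X i)))

lemma sec_X (i : Fin n) : sec p k n (X i) = Ideal.Quotient.mk _ (teichmuller p (X i)) := by
  unfold sec
  rw [coe_eval₂Hom, eval₂_X]

lemma pr_sec (x : MvPolynomial (Fin n) k) : pr (sec p k n x) = x := by
  have : (pr (p := p)).comp (sec p k n) = RingHom.id _ := by
    apply MvPolynomial.ringHom_ext
    · intro c
      rw [RingHom.comp_apply, RingHom.id_apply]
      unfold sec
      rw [coe_eval₂Hom, eval₂_C]
      unfold kB
      rw [RingHom.comp_apply]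
      obtain ⟨w, hw⟩ := Ideal.Quotient.mk_surjective ((quotientPEquiv (p := p) (k := k)).symm c)
      have h1 : c = w.coeff 0 := by
        have := congrArg (quotientPEquiv (p := p) (k := k)) hw
        rw [RingEquiv.apply_symm_apply] at this
        rw [← this]
        rfl
      change pr (Ideal.quotientMap _ _ _ ((quotientPEquiv (p := p) (k := k)).symm c)) = C c
      rw [← hw, Ideal.quotientMap_mk]
      change (WittVector.map C w).coeff 0 = C c
      rw [WittVector.map_coeff, h1]
    · intro i
      rw [RingHom.comp_apply, RingHom.id_apply, sec_X]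
      change (teichmuller p (X i)).coeff 0 = X i
      rw [teichmuller_coeff_zero]
  exact congrFun (congrArg DFunLike.coe this) x

end

end Pool.Agent.Helper10_QFP
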