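import Mathlib

set_option autoImplicit false

namespace Pool.Agent.Helper10_QFP

open WittVector

section Witt

variable {p : ℕ} [hp : Fact p.Prime] {A : Type*} [CommRing A]

lemma exists_V {w : WittVector p A} (h : w.coeff 0 = 0) :
    ∃ v : WittVector p A, w = verschiebung v ∧ v.coeff 0 = w.coeff 1 := by
  refine ⟨w.shift 1, ?_, ?_⟩
  · have := eq_iterate_verschiebung (x := w) (n := 1) (fun i hi => by
      have : i = 0 := by omega
      rw [this]; exact h)
    simpa using this
  · rw [shift_coeff]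

lemma coeff_one_add {w w' : WittVector p A} (h : w.coeff 0 = 0) (h' : w'.coeff 0 = 0) :
    (w + w').coeff 1 = w.coeff 1 + w'.coeff 1 := by
  obtain ⟨v, rfl, hv⟩ := exists_V h
  obtain ⟨v', rfl, hv'⟩ := exists_V h'
  rw [← map_add, ← hv, ← hv']
  have h1 : ∀ y : WittVector p A, (verschiebung y).coeff 1 = y.coeff 0 := fun y => by
    have := verschiebung_coeff_add_one y 0
    simpa using this
  rw [h1]
  exact WittVector.add_coeff_zero v v'

lemma coeff_zero_add (w w' : WittVector p A) : (w + w').coeff 0 = w.coeff 0 + w'.coeff 0 :=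
  WittVector.add_coeff_zero w w'

lemma coeff_zero_mul (w w' : WittVector p A) : (w * w').coeff 0 = w.coeff 0 * w'.coeff 0 :=
  map_mul (constantCoeff : WittVector p A →+* A) w w'

lemma coeff_zero_sub (w w' : WittVector p A) : (w - w').coeff 0 = w.coeff 0 - w'.coeff 0 :=
  map_sub (constantCoeff : WittVector p A →+* A) w w'

lemma coeff_zero_pow (w : WittVector p A) (n : ℕ) : (w ^ n).coeff 0 = w.coeff 0 ^ n :=
  map_pow (constantCoeff : WittVector p A →+* A) w n

lemma V_coeff_one (y : WittVector p A) : (verschiebung y).coeff 1 = y.coeff 0 := by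
  have := verschiebung_coeff_add_one y 0
  simpa using this

variable [CharP A p]

lemma V_mul (v y : WittVector p A) : (verschiebung v * y).coeff 0 = 0 ∧
    (verschiebung v * y).coeff 1 = v.coeff 0 * y.coeff 0 ^ p := by
  rw [← verschiebung_mul_frobenius]
  refine ⟨verschiebung_coeff_zero _, ?_⟩
  rw [V_coeff_one, coeff_zero_mul, coeff_frobenius_charP]

/-- multiplication of a vector with vanishing zeroth component -/
lemma mul_coeff_one {w : WittVector p A} (h : w.coeff 0 = 0) (y : WittVector p A) :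
    (w * y).coeff 0 = 0 ∧ (w * y).coeff 1 = w.coeff 1 * y.coeff 0 ^ p := by
  obtain ⟨v, rfl, hv⟩ := exists_V h
  rw [← hv]
  exact V_mul v y

lemma p_mul_coeff (z : WittVector p A) : (z * p).coeff 0 = 0 ∧ (z * p).coeff 1 = z.coeff 0 ^ p :=
  ⟨mul_charP_coeff_zero z, by simpa using mul_charP_coeff_succ z 0⟩

/-- the ideal `(p)` of `W(A)` -/
noncomputable abbrev pI (p : ℕ) [Fact p.Prime] (A : Type*) [CommRing A] : Ideal (WittVector p A) :=
  Ideal.span {(p : WittVector p A)}

lemma mem_pI {w : WittVector p A} : w ∈ pI p A ↔ ∃ z, w = z * p := by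
  rw [Ideal.mem_span_singleton']
  constructor
  · rintro ⟨a, rfl⟩; exact ⟨a, rfl⟩
  · rintro ⟨a, rfl⟩; exact ⟨a, rfl⟩

/-- the square of a vector in the image of Verschiebung is divisible by `p` -/
lemma sq_mem {w : WittVector p A} (h : w.coeff 0 = 0) : w ^ 2 ∈ pI p A := by
  obtain ⟨v, rfl, hv⟩ := exists_V h
  rw [sq, ← verschiebung_mul_frobenius, frobenius_verschiebung, ← mul_assoc]
  rw [mem_pI]
  refine ⟨verschiebung (v * v), ?_⟩
  have : ∀ y : WittVector p A, verschiebung (y * (p : WittVector p A)) =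
      verschiebung y * (p : WittVector p A) := by
    intro y
    rw [← nsmul_eq_mul', map_nsmul, nsmul_eq_mul']
  rw [this]

lemma pow_mem {w : WittVector p A} (h : w.coeff 0 = 0) : w ^ p ∈ pI p A := by
  obtain ⟨m, hm⟩ : ∃ m, p = 2 + m := ⟨p - 2, by have := hp.out.two_le; omega⟩
  have : w ^ p = w ^ 2 * w ^ m := by rw [← pow_add, ← hm]
  rw [this]
  exact Ideal.mul_mem_right _ _ (sq_mem h)

/-- `(x+y)^p ≡ x^p + y^p` modulo `p` -/
lemma add_pow_mem (x y : WittVector p A) : (x + y) ^ p - (x ^ p + y ^ p) ∈ pI p A := by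
  obtain ⟨r, hr⟩ := exists_add_pow_prime_eq hp.out x y
  rw [hr, mem_pI]
  exact ⟨x * y * r, by ring⟩

/-- Frobenius is the `p`-th power modulo `p` -/
lemma frob_mem (v : WittVector p A) {s : WittVector p A} (hs : s.coeff 0 = v.coeff 0) :
    frobenius v - s ^ p ∈ pI p A := by
  -- reduce to the Teichmuller representative
  have key : ∀ v : WittVector p A, frobenius v - (teichmuller p (v.coeff 0)) ^ p ∈ pI p A := by
    intro v
    have h0 : (v - teichmuller p (v.coeff 0)).coeff 0 = 0 := by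
      rw [coeff_zero_sub, teichmuller_coeff_zero, sub_self]
    obtain ⟨y, hy, -⟩ := exists_V h0
    have h1 : v = teichmuller p (v.coeff 0) + verschiebung y := by rw [← hy]; ring
    have h2 : frobenius (teichmuller p (v.coeff 0)) = (teichmuller p (v.coeff 0)) ^ p := by
      ext n
      rw [coeff_frobenius_charP, ← map_pow]
      rcases Nat.eq_zero_or_pos n with h | h
      · subst h; rw [teichmuller_coeff_zero, teichmuller_coeff_zero]
      · rw [teichmuller_coeff_pos p _ n h, teichmuller_coeff_pos p _ n h,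
          zero_pow hp.out.ne_zero]
    have h3 : frobenius v = (teichmuller p (v.coeff 0)) ^ p + y * p := by
      conv_lhs => rw [h1]
      rw [map_add, h2, frobenius_verschiebung]
    rw [h3, mem_pI]
    exact ⟨y, by ring⟩
  have h1 := key v
  have h0 : (s - teichmuller p (v.coeff 0)).coeff 0 = 0 := by
    rw [coeff_zero_sub, teichmuller_coeff_zero, hs, sub_self]
  have h2 := add_pow_mem (teichmuller p (v.coeff 0)) (s - teichmuller p (v.coeff 0))
  rw [add_sub_cancel] at h2
  have h3 := pow_mem h0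
  have h4 : frobenius v - s ^ p = (frobenius v - (teichmuller p (v.coeff 0)) ^ p) -
      (s ^ p - ((teichmuller p (v.coeff 0)) ^ p + (s - teichmuller p (v.coeff 0)) ^ p)) -
      (s - teichmuller p (v.coeff 0)) ^ p := by ring
  rw [h4]
  exact Ideal.sub_mem _ (Ideal.sub_mem _ h1 h2) h3

end Witt

section Psi

variable {p : ℕ} [hp : Fact p.Prime] {A : Type*} [CommRing A] [CharP A p]
variable (sb : A →+* WittVector p A ⧸ pI p A) (u : A →+ A) (g0 g1 : A)

/-- set-theoretic representatives of the section -/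
noncomputable def sh (x : A) : WittVector p A := (Ideal.Quotient.mk_surjective (sb x)).choose

lemma mk_sh (x : A) : Ideal.Quotient.mk (pI p A) (sh sb x) = sb x :=
  (Ideal.Quotient.mk_surjective (sb x)).choose_spec

/-- the projection `W(A)/p → A` -/
noncomputable def pr : WittVector p A ⧸ pI p A →+* A :=
  Ideal.Quotient.lift _ constantCoeff (by
    intro w hw
    obtain ⟨z, rfl⟩ := mem_pI.mp hw
    exact (p_mul_coeff z).1)

variable (hsec : ∀ x, pr (sb x) = x)

include hsec in
lemma sh_coeff (x : A) : (sh sb x).coeff 0 = x := by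
  have := hsec x
  rw [← mk_sh sb x] at this
  exact this

lemma sh_mul (x y : A) : ∃ z, sh sb (x * y) = sh sb x * sh sb y + z * p := by
  have h : sh sb (x * y) - sh sb x * sh sb y ∈ pI p A := by
    rw [← Ideal.Quotient.eq_zero_iff_mem, map_sub, map_mul, mk_sh, mk_sh, mk_sh, map_mul, sub_self]
  obtain ⟨z, hz⟩ := mem_pI.mp h
  exact ⟨z, by rw [← hz]; ring⟩

lemma sh_add (x y : A) : ∃ z, sh sb (x + y) = sh sb x + sh sb y + z * p := by
  have h : sh sb (x + y) - (sh sb x + sh sb y) ∈ pI p A := by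
    rw [← Ideal.Quotient.eq_zero_iff_mem, map_sub, map_add, mk_sh, mk_sh, mk_sh, map_add, sub_self]
  obtain ⟨z, hz⟩ := mem_pI.mp h
  exact ⟨z, by rw [← hz]; ring⟩

lemma sh_pow (x : A) (n : ℕ) : ∃ z, sh sb (x ^ n) = sh sb x ^ n + z * p := by
  have h : sh sb (x ^ n) - sh sb x ^ n ∈ pI p A := by
    rw [← Ideal.Quotient.eq_zero_iff_mem, map_sub, map_pow, mk_sh, mk_sh, map_pow, sub_self]
  obtain ⟨z, hz⟩ := mem_pI.mp h
  exact ⟨z, by rw [← hz]; ring⟩

lemma sh_one : ∃ z, sh sb 1 = 1 + z * p := by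
  have h : sh sb 1 - 1 ∈ pI p A := by
    rw [← Ideal.Quotient.eq_zero_iff_mem, map_sub, mk_sh, map_one, map_one, sub_self]
  obtain ⟨z, hz⟩ := mem_pI.mp h
  exact ⟨z, by rw [← hz]; ring⟩

lemma sh_zero : ∃ z, sh sb 0 = z * p := by
  have h : sh sb 0 ∈ pI p A := by
    rw [← Ideal.Quotient.eq_zero_iff_mem, mk_sh, map_zero]
  exact mem_pI.mp h

/-- the coordinate `Λ(w) = u (u (g1 w_1))` for `w_0 = 0` -/
def Lam (w : WittVector p A) : A := u (u (g1 * w.coeff 1))

variable (hu : ∀ a b : A, u (a ^ p * b) = a * u b) (hg1 : u g1 = 0)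

lemma Lam_add {w w' : WittVector p A} (h : w.coeff 0 = 0) (h' : w'.coeff 0 = 0) :
    Lam u g1 (w + w') = Lam u g1 w + Lam u g1 w' := by
  unfold Lam
  rw [coeff_one_add h h', mul_add, map_add, map_add]

include hu hg1 in
lemma Lam_p (z : WittVector p A) : Lam u g1 (z * (p : WittVector p A)) = 0 := by
  unfold Lam
  rw [(p_mul_coeff z).2, mul_comm, hu, hg1, mul_zero, map_zero]

include hu hg1 in
lemma Lam_add_p {w : WittVector p A} (h : w.coeff 0 = 0) (z : WittVector p A) :
    Lam u g1 (w + z * (p : WittVector p A)) = Lam u g1 w := by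
  rw [Lam_add u g1 h (p_mul_coeff z).1, Lam_p u g1 hu hg1, add_zero]

/-- the functional `ψ : W(A) → A` -/
noncomputable def psi (w : WittVector p A) : A :=
  u (g0 * w.coeff 0) + Lam u g1 (w - sh sb (w.coeff 0))

include hsec in
lemma sub_sh (w : WittVector p A) : (w - sh sb (w.coeff 0)).coeff 0 = 0 := by
  rw [coeff_zero_sub, sh_coeff sb hsec, sub_self]

include hsec hu hg1 in
lemma psi_add (w w' : WittVector p A) :
    psi sb u g0 g1 (w + w') = psi sb u g0 g1 w + psi sb u g0 g1 w' := by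
  obtain ⟨z, hz⟩ := sh_add sb (w.coeff 0) (w'.coeff 0)
  unfold psi
  rw [coeff_zero_add, mul_add, map_add, hz]
  have h1 : w + w' - (sh sb (w.coeff 0) + sh sb (w'.coeff 0) + z * p) =
      ((w - sh sb (w.coeff 0)) + (w' - sh sb (w'.coeff 0))) + (-z) * p := by ring
  have h0 := sub_sh sb hsec w
  have h0' := sub_sh sb hsec w'
  rw [h1, Lam_add_p u g1 hu hg1 (by rw [coeff_zero_add, h0, h0', add_zero]), Lam_add u g1 h0 h0']
  ring

include hsec hu hg1 in
/-- `ψ (F(v) w) = v_0 ψ(w)` -/
lemma psi_frob (v w : WittVector p A) :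
    psi sb u g0 g1 (frobenius v * w) = v.coeff 0 * psi sb u g0 g1 w := by
  set a := v.coeff 0 with ha
  have h0 := sub_sh sb hsec w
  obtain ⟨z1, hz1⟩ := sh_mul sb (a ^ p) (w.coeff 0)
  obtain ⟨z2, hz2⟩ := sh_pow sb a p
  obtain ⟨z3, hz3⟩ := mem_pI.mp (frob_mem v (s := sh sb a) (sh_coeff sb hsec a))
  unfold psi
  rw [coeff_zero_mul, coeff_frobenius_charP, ← ha, hz1, hz2]
  have h1 : frobenius v * w - ((sh sb a ^ p + z2 * p) * sh sb (w.coeff 0) + z1 * p) =
      (w - sh sb (w.coeff 0)) * (sh sb a ^ p) +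
      (z3 * w - z2 * sh sb (w.coeff 0) - z1) * p := by
    have : frobenius v = sh sb a ^ p + z3 * p := by rw [← hz3]; ring
    rw [this]; ring
  obtain ⟨h2, h3⟩ := mul_coeff_one h0 (sh sb a ^ p)
  rw [h1, Lam_add_p u g1 hu hg1 h2]
  unfold Lam
  rw [h3, coeff_zero_pow, sh_coeff sb hsec]
  have h4 : g0 * (a ^ p * w.coeff 0) = a ^ p * (g0 * w.coeff 0) := by ring
  have h5 : g1 * ((w - sh sb (w.coeff 0)).coeff 1 * (a ^ p) ^ p) =
      (a ^ p) ^ p * (g1 * (w - sh sb (w.coeff 0)).coeff 1) := by ring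
  rw [h4, hu, h5, hu, hu]
  ring

include hsec hu hg1 in
lemma psi_one : psi sb u g0 g1 1 = u g0 := by
  unfold psi
  obtain ⟨z, hz⟩ := sh_one sb
  have h1 : (1 : WittVector p A).coeff 0 = 1 := WittVector.one_coeff_zero p A
  rw [h1, hz, mul_one]
  have : (1 : WittVector p A) - (1 + z * p) = (-z) * p := by ring
  rw [this, Lam_p u g1 hu hg1, add_zero]

include hu hg1 in
/-- the value on vectors with vanishing zeroth component -/
lemma psi_of_zero {w : WittVector p A} (h : w.coeff 0 = 0) :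
    psi sb u g0 g1 w = u (u (g1 * w.coeff 1)) := by
  unfold psi
  obtain ⟨z, hz⟩ := sh_zero sb
  rw [h, mul_zero, map_zero, zero_add, hz]
  have : w - z * p = w + (-z) * p := by ring
  rw [this, Lam_add_p u g1 hu hg1 h]
  rfl

include hsec hu hg1 in
/-- the value on `[f a]` -/
lemma psi_teich (f a : A) : ∃ β : A, psi sb u g0 g1 (teichmuller p (f * a)) =
    u (g0 * (f * a)) + (u (u (g1 * ((teichmuller p f - sh sb f).coeff 1 * a ^ p))) +
      u (u (g1 * (β * f ^ p)))) := by
  refine ⟨(teichmuller p a - sh sb a).coeff 1, ?_⟩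
  unfold psi
  rw [teichmuller_coeff_zero]
  obtain ⟨z, hz⟩ := sh_mul sb f a
  have hf0 : (teichmuller p f - sh sb f).coeff 0 = 0 := by
    rw [coeff_zero_sub, teichmuller_coeff_zero, sh_coeff sb hsec, sub_self]
  have ha0 : (teichmuller p a - sh sb a).coeff 0 = 0 := by
    rw [coeff_zero_sub, teichmuller_coeff_zero, sh_coeff sb hsec, sub_self]
  have h1 : teichmuller p (f * a) - sh sb (f * a) =
      ((teichmuller p f - sh sb f) * teichmuller p a +
        (teichmuller p a - sh sb a) * sh sb f) + (-z) * p := by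
    rw [hz, map_mul]; ring
  obtain ⟨h2, h3⟩ := mul_coeff_one hf0 (teichmuller p a)
  obtain ⟨h4, h5⟩ := mul_coeff_one ha0 (sh sb f)
  rw [h1, Lam_add_p u g1 hu hg1 (by rw [coeff_zero_add, h2, h4, add_zero]), Lam_add u g1 h2 h4]
  unfold Lam
  rw [h3, h5, teichmuller_coeff_zero, sh_coeff sb hsec]

end Psi

end Pool.Agent.Helper10_QFP
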